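import Pool.Agent.W978.QO.Stm
import Pool.Agent.W150.QN.R

/-!
Primitive vectors on a plane: lower bound (pigeonhole and the upper bound for primitive vectors).
-/

set_option autoImplicit false

open Finset Pool.Agent.W978.QN

namespace Pool.Agent.W659.QO

lemma bez (r : Fin 3 → ℤ) : ∃ u : Fin 3 → ℤ, (ct r : ℤ) = ∑ i, u i * r i := by
  have h1 := Int.gcd_eq_gcd_ab (r 0) (r 1)
  have h2 := Int.gcd_eq_gcd_ab ((Int.gcd (r 0) (r 1) : ℕ) : ℤ) (r 2)
  refine ⟨![Int.gcdA (r 0) (r 1) * Int.gcdA ((Int.gcd (r 0) (r 1) : ℕ) : ℤ) (r 2),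
    Int.gcdB (r 0) (r 1) * Int.gcdA ((Int.gcd (r 0) (r 1) : ℕ) : ℤ) (r 2),
    Int.gcdB ((Int.gcd (r 0) (r 1) : ℕ) : ℤ) (r 2)], ?_⟩
  have h3 : ct r = Int.gcd ((Int.gcd (r 0) (r 1) : ℕ) : ℤ) (r 2) := by
    unfold ct; rw [Int.gcd_eq_natAbs_gcd_natAbs ((Int.gcd (r 0) (r 1) : ℕ) : ℤ), Int.natAbs_natCast]
  rw [h3, h2, Fin.sum_univ_three]
  simp only [Matrix.cons_val_zero, Matrix.cons_val_one, Matrix.cons_val]
  nth_rewrite 1 [h1]
  ring

/-- division by the content -/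
lemma split (r : Fin 3 → ℤ) (hr : r ≠ 0) : ∃ r' : Fin 3 → ℤ, Prim r' ∧
    (∀ i, r i = (ct r : ℤ) * r' i) ∧ (ct r : ℤ) * nm r' = nm r := by
  obtain ⟨h1, h2⟩ := ct_le_nm hr
  choose r' hr' using fun i => ct_dvd r i
  have hpos : (0 : ℤ) < ct r := by exact_mod_cast h1
  refine ⟨r', ?_, hr', ?_⟩
  · obtain ⟨u, hu⟩ := bez r
    refine ⟨u, ?_⟩
    have : (ct r : ℤ) * 1 = (ct r : ℤ) * ∑ i, u i * r' i := by
      rw [mul_one, Finset.mul_sum]
      conv_lhs => rw [hu]
      exact Finset.sum_congr rfl fun i _ => by rw [hr' i]; ring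
    exact (mul_left_cancel₀ hpos.ne' this).symm
  · unfold nm
    rw [mul_max_of_nonneg _ _ hpos.le, mul_max_of_nonneg _ _ hpos.le, hr' 0, hr' 1, hr' 2,
      abs_mul, abs_mul, abs_mul, abs_of_pos hpos]

open Classical in
noncomputable def A (w : Fin 3 → ℤ) (R : ℕ) : Finset (Fin 3 → ℤ) :=
  (bx R).filter fun r => Prim r ∧ ∑ k, w k * r k = 0

lemma A_mono (w : Fin 3 → ℤ) {R R' : ℕ} (h : R ≤ R') : A w R ⊆ A w R' := by
  classical
  intro r hr
  unfold A at hr ⊢
  simp only [mem_filter, mem_bx] at hr ⊢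
  exact ⟨hr.1.trans (by exact_mod_cast h), hr.2⟩

lemma pig (w : Fin 3 → ℤ) (V : ℕ) (hV : 1 ≤ V) (hw : ∀ i, |w i| ≤ V) (R : ℕ) (hR : 1 ≤ R) :
    (R : ℝ) ^ 2 / (7 * V) ≤ (((bx R).filter fun r => ∑ k, w k * r k = 0).card : ℝ) := by
  classical
  set s : Finset (Fin 3 → ℤ) := Fintype.piFinset fun _ => Finset.Icc (0 : ℤ) R with hs
  set t : Finset ℤ := Finset.Icc (-(3 * V * R : ℤ)) (3 * V * R) with ht
  have hsc : (s.card : ℝ) = ((R : ℝ) + 1) ^ 3 := by
    rw [hs, Fintype.card_piFinset]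
    simp
  have htc : (t.card : ℝ) = 6 * V * R + 1 := by
    rw [ht, Int.card_Icc]
    have h0 : ((3 * V * R + 1 - -(3 * V * R : ℤ)).toNat : ℤ) = 6 * V * R + 1 := by
      have h00 : (0 : ℤ) ≤ 3 * V * R := by positivity
      rw [Int.toNat_of_nonneg (by linarith)]; ring
    exact_mod_cast h0
  have hf : ∀ v ∈ s, ∑ k, w k * v k ∈ t := by
    intro v hv
    rw [hs, Fintype.mem_piFinset] at hv
    rw [ht, Finset.mem_Icc, ← abs_le]
    have h1 : |∑ k, w k * v k| ≤ 3 * (V * R : ℤ) := by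
      refine abs_sum3 _ _ fun i => ?_
      have h2 := Finset.mem_Icc.mp (hv i)
      rw [abs_mul]
      have h3 : |v i| ≤ R := by rw [abs_of_nonneg h2.1]; exact h2.2
      exact mul_le_mul (hw i) h3 (abs_nonneg _) (by positivity)
    linarith [h1]
  have hVr : (1 : ℝ) ≤ V := by exact_mod_cast hV
  have hRr : (1 : ℝ) ≤ R := by exact_mod_cast hR
  have hb : t.card • ((R : ℝ) ^ 2 / (7 * V)) ≤ (s.card : ℝ) := by
    rw [nsmul_eq_mul, htc, hsc]
    have h4 : (6 * (V : ℝ) * R + 1) * ((R : ℝ) ^ 2 / (7 * V)) ≤ (7 * V * R) * ((R : ℝ) ^ 2 / (7 * V)) := by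
      refine mul_le_mul_of_nonneg_right ?_ (by positivity)
      nlinarith [mul_le_mul hVr hRr (by norm_num) (by linarith)]
    have h5 : (7 * (V : ℝ) * R) * ((R : ℝ) ^ 2 / (7 * V)) = (R : ℝ) ^ 3 := by
      field_simp
    have h6 : (R : ℝ) ^ 3 ≤ ((R : ℝ) + 1) ^ 3 := by
      exact pow_le_pow_left₀ (by linarith) (by linarith) 3
    linarith
  have htn : t.Nonempty := by
    have h00 : (0 : ℤ) ≤ 3 * V * R := by positivity
    exact ⟨0, by rw [ht, Finset.mem_Icc]; constructor <;> linarith⟩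
  obtain ⟨y, hy, hyc⟩ := Finset.exists_le_card_fiber_of_nsmul_le_card_of_maps_to hf htn hb
  set F := s.filter fun v => ∑ k, w k * v k = y with hF
  have hFn : F.Nonempty := by
    rw [← Finset.card_pos]
    have : (0 : ℝ) < F.card := lt_of_lt_of_le (by positivity) hyc
    exact_mod_cast this
  obtain ⟨v0, hv0⟩ := hFn
  refine hyc.trans ?_
  have hcard : F.card ≤ ((bx R).filter fun r => ∑ k, w k * r k = 0).card := by
    refine Finset.card_le_card_of_injOn (fun v => v - v0) ?_ ?_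
    · intro v hv
      rw [Finset.mem_coe, hF, Finset.mem_filter, hs, Fintype.mem_piFinset] at hv
      rw [hF, Finset.mem_filter, hs, Fintype.mem_piFinset] at hv0
      rw [Finset.mem_coe, Finset.mem_filter, mem_bx]
      refine ⟨nm_le fun i => ?_, ?_⟩
      · have h1 := Finset.mem_Icc.mp (hv.1 i)
        have h2 := Finset.mem_Icc.mp (hv0.1 i)
        simp only [Pi.sub_apply]
        rw [abs_le]; constructor <;> linarith [h1.1, h1.2, h2.1, h2.2]
      · simp only [Pi.sub_apply, mul_sub, Finset.sum_sub_distrib]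
        rw [hv.2, hv0.2, sub_self]
    · intro v _ v' _ h
      exact sub_left_injective h
  exact_mod_cast hcard

lemma cover (w : Fin 3 → ℤ) (R : ℕ) :
    ((bx R).filter fun r => ∑ k, w k * r k = 0).card ≤ 1 + ∑ l ∈ Icc 1 R, (A w (R / l)).card := by
  classical
  have hsub : ((bx R).filter fun r => ∑ k, w k * r k = 0) ⊆
      {0} ∪ (Icc 1 R).biUnion fun l => (A w (R / l)).image fun r' => fun i => (l : ℤ) * r' i := by
    intro r hr
    rw [mem_filter, mem_bx] at hr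
    by_cases h0 : r = 0
    · rw [h0]; simp
    · obtain ⟨r', hp, hr', hn⟩ := split r h0
      obtain ⟨h1, h2⟩ := ct_le_nm h0
      have hpos : (0 : ℤ) < ct r := by exact_mod_cast h1
      rw [mem_union, mem_biUnion]
      right
      refine ⟨ct r, ?_, ?_⟩
      · rw [mem_Icc]
        refine ⟨h1, ?_⟩
        have := h2.trans hr.1
        exact_mod_cast this
      · rw [mem_image]
        refine ⟨r', ?_, ?_⟩
        · unfold A
          rw [mem_filter, mem_bx]
          refine ⟨?_, hp, ?_⟩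
          · push_cast
            rw [Int.le_ediv_iff_mul_le hpos, mul_comm, hn]
            exact hr.1
          · have h3 : (ct r : ℤ) * ∑ k, w k * r' k = 0 := by
              rw [Finset.mul_sum, ← hr.2]
              exact Finset.sum_congr rfl fun i _ => by rw [hr' i]; ring
            exact (mul_eq_zero.mp h3).resolve_left hpos.ne'
        · funext i
          exact (hr' i).symm
  refine (card_le_card hsub).trans ((card_union_le _ _).trans ?_)
  rw [card_singleton]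
  refine Nat.add_le_add_left (card_biUnion_le.trans (Finset.sum_le_sum fun l _ => ?_)) _
  exact card_image_le

open Classical in
lemma rep_half (w : Fin 3 → ℤ) (R : ℕ) :
    (A w R).card ≤ 2 * ((bx R).filter fun r => Rep r ∧ ∑ k, w k * r k = 0).card := by
  set B := (bx R).filter fun r => Rep r ∧ ∑ k, w k * r k = 0 with hB
  have hsub : A w R ⊆ B ∪ B.image fun r => -r := by
    intro r hr
    unfold A at hr
    simp only [mem_filter, mem_bx] at hr
    obtain ⟨h1, hp, h2⟩ := hr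
    have hpn : Prim (-r) := by
      obtain ⟨u, hu⟩ := hp
      exact ⟨-u, by rw [← hu]; exact Finset.sum_congr rfl fun i _ => by simp⟩
    have hnn : nm (-r) ≤ R := by
      unfold nm at h1 ⊢
      simpa using h1
    have hs : ∑ k, w k * (-r) k = 0 := by
      have : ∑ k, w k * (-r) k = - ∑ k, w k * r k := by
        rw [← Finset.sum_neg_distrib]; exact Finset.sum_congr rfl fun i _ => by simp
      rw [this, h2, neg_zero]
    have key : Rep r ∨ Rep (-r) := by
      rcases lt_trichotomy (r 0) 0 with h | h | h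
      · right; exact ⟨hpn, Or.inl (by simpa using h)⟩
      · rcases lt_trichotomy (r 1) 0 with h' | h' | h'
        · right; exact ⟨hpn, Or.inr (Or.inl ⟨by simpa using h, by simpa using h'⟩)⟩
        · obtain ⟨u, hu⟩ := id hp
          rw [Fin.sum_univ_three, h, h', mul_zero, mul_zero, zero_add, zero_add] at hu
          rcases Int.isUnit_iff.mp (IsUnit.of_mul_eq_one_right _ hu) with h'' | h''
          · left; exact ⟨hp, Or.inr (Or.inr ⟨h, h', h''⟩)⟩
          · right; exact ⟨hpn, Or.inr (Or.inr ⟨by simpa using h, by simpa using h', by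
              simp [h'']⟩)⟩
        · left; exact ⟨hp, Or.inr (Or.inl ⟨h, h'⟩)⟩
      · left; exact ⟨hp, Or.inl h⟩
    rw [mem_union]
    rcases key with hk | hk
    · left; rw [hB, mem_filter, mem_bx]; exact ⟨h1, hk, h2⟩
    · right; rw [mem_image]
      exact ⟨-r, by rw [hB, mem_filter, mem_bx]; exact ⟨hnn, hk, hs⟩, neg_neg r⟩
  refine (card_le_card hsub).trans ((card_union_le _ _).trans ?_)
  have := card_image_le (s := B) (f := fun r => -r)
  omega

theorem main (hR : S_R) : Pool.Agent.W978.QO.S_L1 := by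
  classical
  refine ⟨1 / 5000, 560, by norm_num, ?_⟩
  intro w hw R hRK
  obtain ⟨w', hp, hw', hn⟩ := split w hw
  obtain ⟨hg1, hg2⟩ := ct_le_nm hw
  have hW1 : 1 ≤ nm w := nm_pos_of_ne hw
  have hV1 : 1 ≤ nm w' := nm_pos hp
  obtain ⟨V, hV⟩ := Int.eq_ofNat_of_zero_le (show 0 ≤ nm w' by omega)
  have hVn : 1 ≤ V := by rw [hV] at hV1; exact_mod_cast hV1
  have hgpos : (0 : ℤ) < ct w := by exact_mod_cast hg1
  have hVW : (V : ℤ) ≤ nm w := by
    rw [← hn, ← hV]
    nlinarith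
  have hRW : 560 * nm w ≤ R := by
    have h1 : nm w ≤ nm w ^ 3 := by nlinarith [mul_nonneg (show 0 ≤ nm w by omega) (show 0 ≤ nm w by omega), sq_nonneg (nm w), pow_pos (show 0 < nm w by omega) 3, mul_le_mul hW1 hW1 (by norm_num) (by omega : 0 ≤ nm w)]
    push_cast at hRK
    linarith
  have hRV : 560 * (V : ℤ) ≤ R := by linarith
  have hR560 : 560 ≤ R := by
    have : (560 : ℤ) ≤ R := by
      have : (1 : ℤ) ≤ V := by exact_mod_cast hVn
      linarith
    exact_mod_cast this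
  -- the same plane
  have hsame : ∀ r : Fin 3 → ℤ, (∑ k, w k * r k = 0) ↔ ∑ k, w' k * r k = 0 := by
    intro r
    have : ∑ k, w k * r k = (ct w : ℤ) * ∑ k, w' k * r k := by
      rw [Finset.mul_sum]
      exact Finset.sum_congr rfl fun i _ => by rw [hw' i]; ring
    rw [this, mul_eq_zero]
    exact ⟨fun h => h.resolve_left hgpos.ne', fun h => Or.inr h⟩
  have hA : ∀ ρ : ℕ, A w ρ = A w' ρ := by
    intro ρ
    unfold A
    exact Finset.filter_congr fun r _ => by rw [hsame r]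
  have hct : (ct w' : ℝ) = 1 := by
    have h1 : (ct w' : ℤ) ∣ 1 := prim_dvd hp fun i => by rw [one_mul]; exact ct_dvd w' i
    have h2 : ct w' = 1 := by
      have := Int.natAbs_dvd_natAbs.mpr h1
      simpa using this
    rw [h2]; norm_num
  have hVr : (1 : ℝ) ≤ V := by exact_mod_cast hVn
  have hRr : (560 : ℝ) ≤ R := by exact_mod_cast hR560
  have hRVr : 560 * (V : ℝ) ≤ R := by exact_mod_cast hRV
  have hnmr : ((nm w' : ℤ) : ℝ) = V := by rw [hV]; simp
  have hup : ∀ ρ : ℕ, 1 ≤ ρ → ((A w' ρ).card : ℝ) ≤ 4 + 8 * (ρ : ℝ) ^ 2 / V := by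
    intro ρ hρ
    have h := hR w' (prim_ne_zero hp) ρ hρ
    rw [hct, mul_one, hnmr] at h
    unfold A
    convert h using 3
  have hlow := pig w' V hVn (fun i => by rw [← hV]; exact le_nm w' i) R (by omega)
  have hcov := cover w' R
  set a : ℝ := ((A w' R).card : ℝ) with ha
  have hterm : ∀ l ∈ Icc 1 R, ((A w' (R / l)).card : ℝ) ≤
      (if l ≤ 224 then a else 0) + 4 + (if l ≤ 224 then 0 else 8 * (R : ℝ) ^ 2 / V * ((l : ℝ) ^ 2)⁻¹) := by
    intro l hl
    rw [mem_Icc] at hl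
    by_cases h : l ≤ 224
    · rw [if_pos h, if_pos h]
      have h1 : ((A w' (R / l)).card : ℝ) ≤ a := by
        rw [ha]; exact_mod_cast card_le_card (A_mono w' (Nat.div_le_self R l))
      linarith
    · rw [if_neg h, if_neg h]
      have h1 := hup (R / l) (Nat.div_pos hl.2 hl.1)
      have h2 : ((R / l : ℕ) : ℝ) ≤ R / l := Nat.cast_div_le
      have h3 : ((R / l : ℕ) : ℝ) ^ 2 ≤ ((R : ℝ) / l) ^ 2 := pow_le_pow_left₀ (by positivity) h2 2
      have h4 : 8 * ((R / l : ℕ) : ℝ) ^ 2 / V ≤ 8 * (R : ℝ) ^ 2 / V * ((l : ℝ) ^ 2)⁻¹ := by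
        have h5 : 8 * (R : ℝ) ^ 2 / V * ((l : ℝ) ^ 2)⁻¹ = 8 * ((R : ℝ) / l) ^ 2 / V := by
          field_simp
        rw [h5]
        gcongr
      linarith
  have hsum : (∑ l ∈ Icc 1 R, ((A w' (R / l)).card : ℝ)) ≤
      224 * a + 4 * R + 8 * (R : ℝ) ^ 2 / V * (1 / 224) := by
    refine (Finset.sum_le_sum hterm).trans ?_
    rw [Finset.sum_add_distrib, Finset.sum_add_distrib]
    have ha0 : 0 ≤ a := by rw [ha]; positivity
    have e1 : ∑ l ∈ Icc 1 R, (if l ≤ 224 then a else 0) ≤ 224 * a := by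
      rw [← Finset.sum_filter, Finset.sum_const, nsmul_eq_mul]
      refine mul_le_mul_of_nonneg_right ?_ ha0
      have : ((Icc 1 R).filter fun l => l ≤ 224).card ≤ (Icc 1 224).card := by
        refine card_le_card fun l hl => ?_
        rw [mem_filter, mem_Icc] at hl
        rw [mem_Icc]; exact ⟨hl.1.1, hl.2⟩
      rw [Nat.card_Icc] at this
      exact_mod_cast this
    have e2 : ∑ _l ∈ Icc 1 R, (4 : ℝ) = 4 * R := by
      rw [Finset.sum_const, Nat.card_Icc, nsmul_eq_mul]; simp; ring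
    have e3 : ∑ l ∈ Icc 1 R, (if l ≤ 224 then 0 else 8 * (R : ℝ) ^ 2 / V * ((l : ℝ) ^ 2)⁻¹) ≤
        8 * (R : ℝ) ^ 2 / V * (1 / 224) := by
      have e4 : ∑ l ∈ Icc 1 R, (if l ≤ 224 then 0 else 8 * (R : ℝ) ^ 2 / V * ((l : ℝ) ^ 2)⁻¹) =
          ∑ l ∈ Ioc 224 R, 8 * (R : ℝ) ^ 2 / V * ((l : ℝ) ^ 2)⁻¹ := by
        rw [show (∑ l ∈ Icc 1 R, (if l ≤ 224 then 0 else 8 * (R : ℝ) ^ 2 / V * ((l : ℝ) ^ 2)⁻¹)) =
          ∑ l ∈ Icc 1 R, (if ¬ (l ≤ 224) then 8 * (R : ℝ) ^ 2 / V * ((l : ℝ) ^ 2)⁻¹ else 0) from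
          Finset.sum_congr rfl fun l _ => by by_cases h : l ≤ 224 <;> simp [h]]
        rw [← Finset.sum_filter]
        refine Finset.sum_congr ?_ fun _ _ => rfl
        ext l
        simp only [mem_filter, mem_Icc, mem_Ioc]
        omega
      rw [e4, ← Finset.mul_sum]
      refine mul_le_mul_of_nonneg_left ?_ (by positivity)
      have e5 := sum_Ioc_inv_sq_le_sub (α := ℝ) (k := 224) (n := R) (by norm_num) (by omega)
      have e6 : (0 : ℝ) ≤ ((R : ℕ) : ℝ)⁻¹ := by positivity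
      have e7 : (((224 : ℕ) : ℝ))⁻¹ = 1 / 224 := by norm_num
      rw [e7] at e5
      linarith
    linarith
  have hcov' : (R : ℝ) ^ 2 / (7 * V) ≤ 1 + (224 * a + 4 * R + 8 * (R : ℝ) ^ 2 / V * (1 / 224)) := by
    refine hlow.trans (le_trans ?_ (add_le_add_right hsum 1))
    exact_mod_cast hcov
  have hq : (R : ℝ) ≤ (R : ℝ) ^ 2 / V * (1 / 560) := by
    rw [div_mul_eq_mul_div, le_div_iff₀ (by linarith)]
    nlinarith
  have hmain : (R : ℝ) ^ 2 / V ≤ 2500 * a := by
    have h7 : (R : ℝ) ^ 2 / (7 * V) = (R : ℝ) ^ 2 / V * (1 / 7) := by field_simp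
    have h8 : 8 * (R : ℝ) ^ 2 / V * (1 / 224) = (R : ℝ) ^ 2 / V * (1 / 28) := by ring
    rw [h7, h8] at hcov'
    nlinarith
  have hhalf : a ≤ 2 * (((bx R).filter fun r => Rep r ∧ ∑ k, w k * r k = 0).card : ℝ) := by
    rw [ha, ← hA]; exact_mod_cast rep_half w R
  have hVWr : (V : ℝ) ≤ ((nm w : ℤ) : ℝ) := by exact_mod_cast hVW
  have hfin : (R : ℝ) ^ 2 / ((nm w : ℤ) : ℝ) ≤ (R : ℝ) ^ 2 / V :=
    div_le_div_of_nonneg_left (by positivity) (by linarith) hVWr
  have hx : 1 / 5000 * (R : ℝ) ^ 2 / ((nm w : ℤ) : ℝ) = 1 / 5000 * ((R : ℝ) ^ 2 / ((nm w : ℤ) : ℝ)) := by ring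
  rw [hx]
  have hlast : 1 / 5000 * ((R : ℝ) ^ 2 / ((nm w : ℤ) : ℝ)) ≤
      (((bx R).filter fun r => Rep r ∧ ∑ k, w k * r k = 0).card : ℝ) := by linarith
  convert hlast using 3

theorem t_L1 : Pool.Agent.W978.QO.S_L1 := main Pool.Agent.W150.QN.primPlane

end Pool.Agent.W659.QO
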